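import Mathlib
import Pool.Agent.H89.EdgeBasic
import Pool.Agent.H89.EdgeOrd

/-!
# Edge lines of twisted Euler products

Orthogonality of Dirichlet characters over the primes and the duality inequality for twists of
Euler products.
-/

open Complex Filter Topology

namespace Pool.H42.HW

open Pool.Agent.H89.EdgeBasic Pool.Agent.H89.EdgeOrd

/-! ### Prime sums of Dirichlet characters -/

section Characters

variable {Q : ℕ}

lemma char_sum_summable (Ψ : DirichletCharacter ℂ Q) {s : ℂ} (hs : 1 < s.re) :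
    Summable (fun p : Nat.Primes => Ψ p * ((p:ℕ):ℂ)^(-s)) := by
  have h : Summable (fun n : ℕ => ((n:ℝ)^(-s.re))) := Real.summable_nat_rpow.mpr (by linarith)
  have h' : Summable (fun p : Nat.Primes => (((p:ℕ):ℝ)^(-s.re))) :=
    h.comp_injective Subtype.val_injective
  refine Summable.of_norm_bounded h' (fun p => ?_)
  have h1 := Complex.norm_natCast_cpow_of_pos p.2.pos (-s)
  rw [norm_mul, h1]
  calc ‖Ψ p‖ * ((p:ℕ):ℝ)^((-s).re) ≤ 1 * ((p:ℕ):ℝ)^((-s).re) := by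
        gcongr
        exact DirichletCharacter.norm_le_one Ψ _
    _ = _ := by rw [one_mul, Complex.neg_re]

variable [NeZero Q]

lemma log_norm_char (Ψ : DirichletCharacter ℂ Q) : ∃ C : ℝ, ∀ s : ℂ, 1 < s.re →
    |Real.log ‖DirichletCharacter.LFunction Ψ s‖ -
      (∑' p : Nat.Primes, Ψ p * ((p:ℕ):ℂ)^(-s)).re| ≤ C := by
  have hsq : Summable (fun p : Nat.Primes => (((p:ℕ):ℝ)^2)⁻¹) := by
    have h : Summable (fun n : ℕ => ((n:ℝ)^2)⁻¹) := Real.summable_nat_pow_inv.mpr (by norm_num)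
    exact h.comp_injective Subtype.val_injective
  refine ⟨∑' p : Nat.Primes, (((p:ℕ):ℝ)^2)⁻¹, ?_⟩
  intro s hs
  have hle : ∀ p : Nat.Primes, ‖Ψ p * ((p:ℕ):ℂ)^(-s)‖ ≤ ((p:ℕ):ℝ)⁻¹ := fun p => by
    have h1 := Complex.norm_natCast_cpow_of_pos p.2.pos (-s)
    rw [norm_mul, h1]
    calc ‖Ψ p‖ * ((p:ℕ):ℝ)^((-s).re) ≤ 1 * ((p:ℕ):ℝ)^((-s).re) := by
          gcongr
          exact DirichletCharacter.norm_le_one Ψ _
      _ ≤ ((p:ℕ):ℝ)⁻¹ := by
          rw [one_mul, ← Real.rpow_neg_one]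
          apply Real.rpow_le_rpow_of_exponent_le
          · exact_mod_cast p.2.one_lt.le
          · rw [Complex.neg_re]; linarith
  have hhalf : ∀ p : Nat.Primes, ((p:ℕ):ℝ)⁻¹ ≤ 1/2 := fun p => by
    have : (2:ℝ) ≤ ((p:ℕ):ℝ) := by exact_mod_cast p.2.two_le
    rw [one_div]
    exact inv_anti₀ (by norm_num) this
  have hsum1 := char_sum_summable Ψ hs
  have hb : ∀ p : Nat.Primes,
      ‖-Complex.log (1 - Ψ p * ((p:ℕ):ℂ)^(-s)) - Ψ p * ((p:ℕ):ℂ)^(-s)‖ ≤ (((p:ℕ):ℝ)^2)⁻¹ := by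
    intro p
    set z := Ψ p * ((p:ℕ):ℂ)^(-s) with hz
    have h1 : ‖z‖ ≤ 1/2 := (hle p).trans (hhalf p)
    have h2 := Complex.norm_log_one_sub_inv_sub_self_le (z := z) (by linarith)
    have h3 : Complex.log (1 - z)⁻¹ = - Complex.log (1 - z) := by
      apply Complex.log_inv
      intro h4
      have h5 : (1 - z).re ≤ 0 := by
        rw [Complex.arg_eq_pi_iff] at h4
        exact h4.1.le
      have h6 := Complex.re_le_norm z
      simp only [Complex.sub_re, Complex.one_re] at h5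
      linarith
    rw [h3] at h2
    refine h2.trans ?_
    have h5 : (1 - ‖z‖)⁻¹ ≤ 2 := by
      rw [inv_le_comm₀ (by linarith) (by norm_num)]
      linarith
    have h6 : ‖z‖ ^ 2 ≤ (((p:ℕ):ℝ)^2)⁻¹ := by
      rw [← inv_pow]
      apply pow_le_pow_left₀ (norm_nonneg _) (hle p)
    have h7 : 0 ≤ (1 - ‖z‖)⁻¹ := by
      apply inv_nonneg.mpr; linarith
    nlinarith [sq_nonneg ‖z‖]
  have hsum2 : Summable (fun p : Nat.Primes => -Complex.log (1 - Ψ p * ((p:ℕ):ℂ)^(-s))) := by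
    have h1 : Summable (fun p : Nat.Primes =>
        -Complex.log (1 - Ψ p * ((p:ℕ):ℂ)^(-s)) - Ψ p * ((p:ℕ):ℂ)^(-s)) :=
      Summable.of_norm_bounded hsq hb
    simpa using h1.add hsum1
  have hz : Real.log ‖DirichletCharacter.LFunction Ψ s‖ =
      (∑' p : Nat.Primes, -Complex.log (1 - Ψ p * ((p:ℕ):ℂ)^(-s))).re := by
    rw [DirichletCharacter.LFunction_eq_LSeries Ψ hs,
      ← DirichletCharacter.LSeries_eulerProduct_exp_log Ψ hs, Complex.norm_exp, Real.log_exp]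
  rw [hz, ← Complex.sub_re, ← hsum2.tsum_sub hsum1]
  refine (Complex.abs_re_le_norm _).trans ?_
  exact tsum_of_norm_bounded hsq.hasSum hb

/-- Prime sums of a Dirichlet character away from its possible pole are bounded. -/
lemma charSum_ne (Ψ : DirichletCharacter ℂ Q) {θ : ℝ} (h : Ψ ≠ 1 ∨ θ ≠ 0) :
    ∃ C : ℝ, ∀ η : ℝ, 0 < η → η ≤ 1 →
      |(∑' p : Nat.Primes, Ψ p * ((p:ℕ):ℂ)^(-(1 + (η:ℂ) + θ * I))).re| ≤ C := by
  obtain ⟨C1, h1⟩ := log_norm_char Ψ
  have hne : ∀ η : ℝ, 0 ≤ η → Ψ ≠ 1 ∨ (1 + (η:ℂ) + θ * I) ≠ 1 := by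
    intro η _
    rcases h with h | h
    · exact Or.inl h
    · right
      intro h2
      have := congrArg Complex.im h2
      simp at this
      exact h this
  have hcont : ContinuousOn (fun η : ℝ => Real.log ‖DirichletCharacter.LFunction Ψ (1 + η + θ * I)‖)
      (Set.Icc 0 1) := by
    apply ContinuousOn.log
    · apply ContinuousOn.norm
      intro η hη
      have h1 : ContinuousAt (DirichletCharacter.LFunction Ψ) (1 + (η:ℂ) + θ * I) :=
        (DirichletCharacter.differentiableAt_LFunction Ψ _ (hne η hη.1).symm).continuousAt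
      have h2 : ContinuousAt (fun η : ℝ => (1 + (η:ℂ) + θ * I)) η := by fun_prop
      exact (ContinuousAt.comp (f := fun η : ℝ => (1 + (η:ℂ) + θ * I)) h1 h2).continuousWithinAt
    · intro η hη
      rw [norm_ne_zero_iff]
      apply DirichletCharacter.LFunction_ne_zero_of_one_le_re Ψ (hne η hη.1)
      simp
      exact hη.1
  obtain ⟨C2, hC2⟩ := isCompact_Icc.exists_bound_of_continuousOn hcont
  refine ⟨C1 + C2, fun η h0 hη => ?_⟩
  have h3 := h1 (1 + η + θ * I) (by simp; exact h0)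
  have h4 := hC2 η ⟨h0.le, hη⟩
  rw [Real.norm_eq_abs] at h4
  rw [abs_le] at h3 h4 ⊢
  constructor <;> linarith

end Characters

/-- `ψ` is (the function on the natural numbers given by) a primitive Dirichlet character. -/
def Prim (ψ : ℕ → ℂ) : Prop :=
  ∃ (q : ℕ) (χ : DirichletCharacter ℂ q), q ≠ 0 ∧ χ.IsPrimitive ∧ ψ = fun n : ℕ => χ n

lemma Prim.norm_le_one {ψ : ℕ → ℂ} (h : Prim ψ) (n : ℕ) : ‖ψ n‖ ≤ 1 := by
  obtain ⟨q, χ, -, -, rfl⟩ := h
  exact DirichletCharacter.norm_le_one χ _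

lemma changeLevel_apply_nat {q Q : ℕ} (hq : q ∣ Q) (χ : DirichletCharacter ℂ q) {n : ℕ}
    (hn : n.Coprime Q) : DirichletCharacter.changeLevel hq χ (n : ZMod Q) = χ (n : ZMod q) := by
  have h := DirichletCharacter.changeLevel_eq_cast_of_dvd χ hq (ZMod.unitOfCoprime n hn)
  rw [ZMod.coe_unitOfCoprime] at h
  rw [h]
  congr 1
  rw [ZMod.cast_natCast hq]

/-- Orthogonality of twists by distinct primitive characters. -/
lemma cross_ne (N : ℕ) (hN : 0 < N) {ψ₁ ψ₂ : ℕ → ℂ} (h₁ : Prim ψ₁) (h₂ : Prim ψ₂) {θ : ℝ}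
    (h : ψ₁ ≠ ψ₂ ∨ θ ≠ 0) : ∃ C : ℝ, ∀ η : ℝ, 0 < η → η ≤ 1 →
      |(∑' p : Idx N, ψ₁ p * (starRingEnd ℂ) (ψ₂ p) * (p:ℂ)^(-(1 + (η:ℂ) + θ * I))).re| ≤ C := by
  obtain ⟨q₁, χ₁, hq₁, hp₁, rfl⟩ := h₁
  obtain ⟨q₂, χ₂, hq₂, hp₂, rfl⟩ := h₂
  set Q := q₁ * q₂ * N with hQ
  have hQ0 : Q ≠ 0 := mul_ne_zero (mul_ne_zero hq₁ hq₂) hN.ne'
  have : NeZero Q := ⟨hQ0⟩
  have : NeZero q₁ := ⟨hq₁⟩
  have : NeZero q₂ := ⟨hq₂⟩
  have hd₁ : q₁ ∣ Q := ⟨q₂ * N, by rw [hQ]; ring⟩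
  have hd₂ : q₂ ∣ Q := ⟨q₁ * N, by rw [hQ]; ring⟩
  have hdN : N ∣ Q := ⟨q₁ * q₂, by rw [hQ]; ring⟩
  set Ψ₁ := DirichletCharacter.changeLevel hd₁ χ₁ with hΨ₁
  set Ψ₂ := DirichletCharacter.changeLevel hd₂ χ₂ with hΨ₂
  have hΨ : Ψ₁ * Ψ₂⁻¹ ≠ 1 ∨ θ ≠ 0 := by
    rcases h with h | h
    · left
      intro h1
      rw [mul_inv_eq_one] at h1
      apply h
      have c1 : Ψ₁.conductor = q₁ := by
        rw [hΨ₁, DirichletCharacter.conductor_changeLevel]
        exact hp₁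
      have c2 : Ψ₂.conductor = q₂ := by
        rw [hΨ₂, DirichletCharacter.conductor_changeLevel]
        exact hp₂
      have c3 : q₁ = q₂ := by rw [← c1, ← c2, h1]
      subst c3
      have c4 : χ₁ = χ₂ := DirichletCharacter.changeLevel_injective hd₁ h1
      rw [c4]
    · exact Or.inr h
  obtain ⟨C, hC⟩ := charSum_ne (Ψ₁ * Ψ₂⁻¹) hΨ
  refine ⟨C, fun η h0 h1 => ?_⟩
  have key := hC η h0 h1
  have e1 : (∑' p : Nat.Primes, (Ψ₁ * Ψ₂⁻¹) p * ((p:ℕ):ℂ)^(-(1 + (η:ℂ) + θ * I))) =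
      ∑' n : ℕ, Set.indicator {p : ℕ | p.Prime}
        (fun n : ℕ => (Ψ₁ * Ψ₂⁻¹) n * (n:ℂ)^(-(1 + (η:ℂ) + θ * I))) n :=
    tsum_subtype {p : ℕ | p.Prime} (fun n : ℕ => (Ψ₁ * Ψ₂⁻¹) n * (n:ℂ)^(-(1 + (η:ℂ) + θ * I)))
  have e2 : (∑' p : Idx N, χ₁ (p:ℕ) * (starRingEnd ℂ) (χ₂ (p:ℕ)) *
      ((p:ℕ):ℂ)^(-(1 + (η:ℂ) + θ * I))) =
      ∑' n : ℕ, Set.indicator {p : ℕ | p.Prime ∧ ¬ p ∣ N}
        (fun n : ℕ => χ₁ n * (starRingEnd ℂ) (χ₂ n) * (n:ℂ)^(-(1 + (η:ℂ) + θ * I))) n :=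
    tsum_subtype {p : ℕ | p.Prime ∧ ¬ p ∣ N}
      (fun n : ℕ => χ₁ n * (starRingEnd ℂ) (χ₂ n) * (n:ℂ)^(-(1 + (η:ℂ) + θ * I)))
  rw [e2]
  rw [e1] at key
  convert key using 4
  funext n
  by_cases hp : n.Prime
  · by_cases hQn : n ∣ Q
    · have h2 : ((n : ℕ) : ZMod Q) ∈ nonunits (ZMod Q) := by
        rw [mem_nonunits_iff, ZMod.isUnit_iff_coprime, hp.coprime_iff_not_dvd, not_not]
        exact hQn
      have h3 : (Ψ₁ * Ψ₂⁻¹) n = 0 := MulChar.map_nonunit _ h2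
      by_cases hnN : n ∣ N
      · simp [Set.indicator, hp, hnN, h3]
      · have h4 : n ∣ q₁ ∨ n ∣ q₂ := by
          rcases (hp.dvd_mul).mp hQn with h | h
          · exact (hp.dvd_mul).mp h
          · exact absurd h hnN
        have h5 : χ₁ n * (starRingEnd ℂ) (χ₂ n) = 0 := by
          rcases h4 with h | h
          · have : χ₁ (n : ZMod q₁) = 0 := by
              apply MulChar.map_nonunit
              rw [ZMod.isUnit_iff_coprime, hp.coprime_iff_not_dvd, not_not]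
              exact h
            rw [this, zero_mul]
          · have : χ₂ (n : ZMod q₂) = 0 := by
              apply MulChar.map_nonunit
              rw [ZMod.isUnit_iff_coprime, hp.coprime_iff_not_dvd, not_not]
              exact h
            rw [this, map_zero, mul_zero]
        simp [Set.indicator, hp, hnN, h3, h5]
    · have hcop : n.Coprime Q := (hp.coprime_iff_not_dvd).mpr hQn
      have hnN : ¬ n ∣ N := fun h => hQn (h.trans hdN)
      have h3 : (Ψ₁ * Ψ₂⁻¹) n = χ₁ n * (starRingEnd ℂ) (χ₂ n) := by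
        rw [MulChar.mul_apply, hΨ₁, changeLevel_apply_nat hd₁ χ₁ hcop, MulChar.inv_apply_eq_inv',
          hΨ₂, changeLevel_apply_nat hd₂ χ₂ hcop]
        congr 1
        have hcop2 : n.Coprime q₂ := Nat.Coprime.coprime_dvd_right hd₂ hcop
        have h4 : ‖χ₂ (n : ZMod q₂)‖ = 1 := by
          have := DirichletCharacter.unit_norm_eq_one χ₂ (ZMod.unitOfCoprime n hcop2)
          rwa [ZMod.coe_unitOfCoprime] at this
        rw [Complex.inv_def, Complex.normSq_eq_norm_sq, h4]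
        simp
      simp [Set.indicator, hp, hnN, h3]
  · simp [Set.indicator, hp]

/-! ### The duality inequality -/

/-- Quadratic form bound for an almost orthonormal family over the primes. -/
lemma quad {N : ℕ} {ι : Type*} [DecidableEq ι] (A : Finset ι) (g : ι → Idx N → ℂ)
    (hg : ∀ j p, ‖g j p‖ ≤ 1)
    (hcross : ∀ j k, ∃ C : ℝ, 0 ≤ C ∧ ∀ η : ℝ, 0 < η → η ≤ 1 →
      |(∑' p : Idx N, (q p η : ℂ) * (g j p * (starRingEnd ℂ) (g k p))).re| ≤
        (if j = k then Real.log (1/η) else 0) + C) :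
    ∃ C : ℝ, 0 ≤ C ∧ ∀ η : ℝ, 0 < η → η ≤ 1 → ∀ v : ι → ℝ,
      Summable (fun p : Idx N => q p η * ‖∑ j ∈ A, (v j : ℂ) * g j p‖ ^ 2) ∧
      ∑' p : Idx N, q p η * ‖∑ j ∈ A, (v j : ℂ) * g j p‖ ^ 2
        ≤ (Real.log (1/η) + C) * ∑ j ∈ A, v j ^ 2 := by
  choose C hC0 hC using hcross
  refine ⟨∑ j ∈ A, ∑ k ∈ A, C j k,
    Finset.sum_nonneg fun s _ => Finset.sum_nonneg fun s' _ => hC0 _ _, ?_⟩
  intro η h0 h1 v
  have hexp : ∀ p : Idx N, q p η * ‖∑ j ∈ A, (v j : ℂ) * g j p‖ ^ 2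
      = ∑ j ∈ A, ∑ k ∈ A, v j * v k * ((q p η : ℂ) * (g j p * (starRingEnd ℂ) (g k p))).re := by
    intro p
    have e1 : (((‖∑ j ∈ A, (v j : ℂ) * g j p‖ ^ 2 : ℝ)) : ℂ) =
        ∑ j ∈ A, ∑ k ∈ A, ((v j * v k : ℝ) : ℂ) * (g j p * (starRingEnd ℂ) (g k p)) := by
      rw [Complex.ofReal_pow, ← Complex.mul_conj', map_sum, Finset.sum_mul_sum]
      apply Finset.sum_congr rfl
      intro s _
      apply Finset.sum_congr rfl
      intro s' _
      rw [map_mul, Complex.conj_ofReal]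
      push_cast
      ring
    have e2 : ((q p η * ‖∑ j ∈ A, (v j : ℂ) * g j p‖ ^ 2 : ℝ) : ℂ) =
        ∑ j ∈ A, ∑ k ∈ A, ((v j * v k : ℝ) : ℂ) *
          ((q p η : ℂ) * (g j p * (starRingEnd ℂ) (g k p))) := by
      rw [Complex.ofReal_mul, e1, Finset.mul_sum]
      apply Finset.sum_congr rfl
      intro s _
      rw [Finset.mul_sum]
      apply Finset.sum_congr rfl
      intro s' _
      ring
    have e3 := congrArg Complex.re e2
    rw [Complex.ofReal_re] at e3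
    rw [e3, Complex.re_sum]
    apply Finset.sum_congr rfl
    intro s _
    rw [Complex.re_sum]
    apply Finset.sum_congr rfl
    intro s' _
    rw [Complex.re_ofReal_mul]
  have hsummable : ∀ j k, Summable (fun p : Idx N =>
      (q p η : ℂ) * (g j p * (starRingEnd ℂ) (g k p))) := by
    intro j k
    refine Summable.of_norm_bounded (summable_q N h0) (fun p => ?_)
    rw [norm_mul, Complex.norm_real, Real.norm_of_nonneg (q_pos p η).le, norm_mul,
      RCLike.norm_conj]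
    calc q p η * (‖g j p‖ * ‖g k p‖) ≤ q p η * (1 * 1) := by
          apply mul_le_mul_of_nonneg_left _ (q_pos p η).le
          exact mul_le_mul (hg j p) (hg k p) (norm_nonneg _) zero_le_one
      _ = q p η := by ring
  have hsum_re : ∀ j k, Summable (fun p : Idx N =>
      ((q p η : ℂ) * (g j p * (starRingEnd ℂ) (g k p))).re) := by
    intro j k
    exact (Complex.hasSum_re (hsummable j k).hasSum).summable
  have hs1 : ∀ j ∈ A, ∀ k ∈ A, Summable (fun p : Idx N =>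
      v j * v k * ((q p η : ℂ) * (g j p * (starRingEnd ℂ) (g k p))).re) :=
    fun s _ s' _ => (hsum_re _ _).mul_left _
  have hs2 : ∀ j ∈ A, Summable (fun p : Idx N =>
      ∑ k ∈ A, v j * v k * ((q p η : ℂ) * (g j p * (starRingEnd ℂ) (g k p))).re) :=
    fun s hs => summable_sum (fun s' hs' => hs1 s hs s' hs')
  constructor
  · simp_rw [hexp]
    exact summable_sum hs2
  · simp_rw [hexp]
    rw [Summable.tsum_finsetSum hs2]
    have hvv : ∀ j ∈ A, ∀ k ∈ A, |v j * v k| ≤ ∑ t ∈ A, v t ^ 2 := by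
      intro s hs s' hs'
      have h1 : v s ^ 2 ≤ ∑ t ∈ A, v t ^ 2 := Finset.single_le_sum (fun t _ => sq_nonneg (v t)) hs
      have h2 : v s' ^ 2 ≤ ∑ t ∈ A, v t ^ 2 :=
        Finset.single_le_sum (fun t _ => sq_nonneg (v t)) hs'
      rw [abs_le]
      constructor <;> nlinarith [sq_nonneg (v s - v s'), sq_nonneg (v s + v s')]
    have e4 : ∀ j ∈ A, ∑' p : Idx N, ∑ k ∈ A,
        v j * v k * ((q p η : ℂ) * (g j p * (starRingEnd ℂ) (g k p))).re
        ≤ ∑ k ∈ A, (|v j * v k| * (if j = k then Real.log (1/η) else 0) +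
          C j k * ∑ t ∈ A, v t ^ 2) := by
      intro s hs
      rw [Summable.tsum_finsetSum (hs1 s hs)]
      apply Finset.sum_le_sum
      intro s' hs'
      rw [tsum_mul_left, ← Complex.re_tsum (hsummable _ _)]
      have h2 := hC s s' η h0 h1
      refine (le_abs_self _).trans ?_
      rw [abs_mul]
      calc |v s * v s'| * |(∑' p : Idx N, (q p η : ℂ) * (g s p * (starRingEnd ℂ) (g s' p))).re|
          ≤ |v s * v s'| * ((if s = s' then Real.log (1/η) else 0) + C s s') :=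
            mul_le_mul_of_nonneg_left h2 (abs_nonneg _)
        _ = |v s * v s'| * (if s = s' then Real.log (1/η) else 0) + C s s' * |v s * v s'| := by
            ring
        _ ≤ _ := by
            have := mul_le_mul_of_nonneg_left (hvv s hs s' hs') (hC0 s s')
            linarith
    refine (Finset.sum_le_sum e4).trans ?_
    have e5 : ∀ s ∈ A, ∑ s' ∈ A, (|v s * v s'| * (if s = s' then Real.log (1/η) else 0) +
          C s s' * ∑ t ∈ A, v t ^ 2)
        = v s ^ 2 * Real.log (1/η) + (∑ s' ∈ A, C s s') * ∑ t ∈ A, v t ^ 2 := by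
      intro s hs
      rw [Finset.sum_add_distrib, Finset.sum_mul]
      congr 1
      rw [Finset.sum_eq_single s]
      · rw [if_pos rfl, ← sq, abs_of_nonneg (sq_nonneg _)]
      · intro t _ ht
        rw [if_neg (Ne.symm ht), mul_zero]
      · intro h
        exact absurd hs h
    rw [Finset.sum_congr rfl e5, Finset.sum_add_distrib, ← Finset.sum_mul, ← Finset.sum_mul]
    apply le_of_eq
    ring

/-- Duality: Cauchy-Schwarz over the primes. -/
lemma dual {N : ℕ} (a G : Idx N → ℂ) (η : ℝ)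
    (ha : Summable (fun p : Idx N => q p η * ‖a p‖ ^ 2))
    (hG : Summable (fun p : Idx N => q p η * ‖G p‖ ^ 2)) :
    |(∑' p : Idx N, (q p η : ℂ) * (a p * G p)).re| ≤
      Real.sqrt (∑' p : Idx N, q p η * ‖a p‖ ^ 2) * Real.sqrt (∑' p : Idx N, q p η * ‖G p‖ ^ 2) := by
  set F : Idx N → ℝ := fun p => Real.sqrt (q p η) * ‖a p‖ with hF
  set K : Idx N → ℝ := fun p => Real.sqrt (q p η) * ‖G p‖ with hK
  have hF2 : ∀ p, F p ^ 2 = q p η * ‖a p‖ ^ 2 := by
    intro p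
    simp only [hF]
    rw [mul_pow, Real.sq_sqrt (q_pos p η).le]
  have hK2 : ∀ p, K p ^ 2 = q p η * ‖G p‖ ^ 2 := by
    intro p
    simp only [hK]
    rw [mul_pow, Real.sq_sqrt (q_pos p η).le]
  have hF0 : ∀ p, 0 ≤ F p := fun p => mul_nonneg (Real.sqrt_nonneg _) (norm_nonneg _)
  have hK0 : ∀ p, 0 ≤ K p := fun p => mul_nonneg (Real.sqrt_nonneg _) (norm_nonneg _)
  have hFs : Summable fun p => F p ^ 2 := by simpa only [hF2] using ha
  have hKs : Summable fun p => K p ^ 2 := by simpa only [hK2] using hG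
  have h1 := tsum_mul_le_sqrt hF0 hK0 hFs hKs
  have h2 := summable_mul_of_sq hF0 hK0 hFs hKs
  simp only [hF2, hK2] at h1
  refine (Complex.abs_re_le_norm _).trans (le_trans ?_ h1)
  refine tsum_of_norm_bounded h2.hasSum (fun p => ?_)
  rw [norm_mul, norm_mul, Complex.norm_real, Real.norm_of_nonneg (q_pos p η).le]
  simp only [hF, hK]
  have h3 := Real.mul_self_sqrt (q_pos p η).le
  calc q p η * (‖a p‖ * ‖G p‖) = (Real.sqrt (q p η) * Real.sqrt (q p η)) * (‖a p‖ * ‖G p‖) := by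
        rw [h3]
    _ ≤ _ := by
        apply le_of_eq
        ring

/-! ### Twisted local factors -/

lemma tr_eq_neg_coeff (P : Polynomial ℂ) (h0 : P.eval 0 = 1) : tr P = -P.coeff 1 := by
  have h1 : P = (P.roots.map fun r => (1 - Polynomial.C r⁻¹ * Polynomial.X)).prod := by
    apply Polynomial.funext
    intro z
    rw [eval_eq_prod P h0 z, Polynomial.eval_multiset_prod, Multiset.map_map]
    congr 1
    apply Multiset.map_congr rfl
    intro r _
    simp only [Function.comp, Polynomial.eval_sub, Polynomial.eval_one, Polynomial.eval_mul,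
      Polynomial.eval_C, Polynomial.eval_X]
    rw [div_eq_mul_inv, mul_comm]
  have h2 : ∀ R : Multiset ℂ,
      ((R.map fun r => (1 - Polynomial.C r⁻¹ * Polynomial.X)).prod.coeff 0 = 1) ∧
      ((R.map fun r => (1 - Polynomial.C r⁻¹ * Polynomial.X)).prod.coeff 1 =
        -(R.map fun r => r⁻¹).sum) := by
    intro R
    induction R using Multiset.induction_on with
    | empty => simp [Polynomial.coeff_one]
    | cons r R ih =>
      obtain ⟨ih0, ih1⟩ := ih
      rw [Multiset.map_cons, Multiset.prod_cons, Multiset.map_cons, Multiset.sum_cons]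
      constructor
      · rw [Polynomial.mul_coeff_zero, ih0]
        simp
      · rw [Polynomial.mul_coeff_one, ih0, ih1]
        simp [Polynomial.coeff_one]
  conv_rhs => rw [h1, (h2 P.roots).2]
  rw [neg_neg]
  rfl

/-- The twisted local factor `P(a T)`. -/
noncomputable def tw (P : Polynomial ℂ) (a : ℂ) : Polynomial ℂ :=
  P.comp (Polynomial.C a * Polynomial.X)

lemma tw_eval (P : Polynomial ℂ) (a z : ℂ) : (tw P a).eval z = P.eval (a * z) := by
  simp [tw, Polynomial.eval_comp]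

lemma tr_tw (P : Polynomial ℂ) (h0 : P.eval 0 = 1) (a : ℂ) : tr (tw P a) = a * tr P := by
  rw [tr_eq_neg_coeff P h0, tr_eq_neg_coeff (tw P a) (by rw [tw_eval, mul_zero, h0]), tw,
    Polynomial.comp_C_mul_X_coeff]
  ring

lemma hyp_tw {N i b : ℕ} {P : ℕ → Polynomial ℂ} (H : Hyp N i b P) {ψ : ℕ → ℂ}
    (hψ : ∀ n, ‖ψ n‖ ≤ 1) : Hyp N i b (fun p => tw (P p) (ψ p)) := by
  refine ⟨H.N0, ?_, ?_, ?_⟩
  · intro p hp hpN
    rw [tw_eval, mul_zero, H.h0 p hp hpN]
  · intro p hp hpN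
    refine (Polynomial.natDegree_comp_le).trans ?_
    have h1 : (Polynomial.C (ψ p) * Polynomial.X).natDegree ≤ 1 := by compute_degree
    calc (P p).natDegree * (Polynomial.C (ψ p) * Polynomial.X).natDegree ≤ (P p).natDegree * 1 :=
          Nat.mul_le_mul_left _ h1
      _ ≤ b := by rw [mul_one]; exact H.hdeg p hp hpN
  · intro p hp hpN z hz
    rw [Polynomial.IsRoot.def, tw_eval] at hz
    have h1 := H.hroots p hp hpN (ψ p * z) hz
    rw [norm_mul] at h1
    calc (p:ℝ) ^ (-(i:ℝ)/2) ≤ ‖ψ p‖ * ‖z‖ := h1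
      _ ≤ 1 * ‖z‖ := mul_le_mul_of_nonneg_right (hψ p) (norm_nonneg _)
      _ = ‖z‖ := one_mul _

/-- The normalised trace. -/
noncomputable def nt {N : ℕ} (P : ℕ → Polynomial ℂ) (i : ℕ) (p : Idx N) : ℂ :=
  tr (P p) * (p:ℂ)^(-((i:ℂ)/2))

lemma nt_norm_le {N i b : ℕ} {P : ℕ → Polynomial ℂ} (H : Hyp N i b P) (p : Idx N) :
    ‖nt P i p‖ ≤ b := by
  rw [nt, norm_mul, norm_half]
  calc ‖tr (P p)‖ * (p:ℝ)^(-((i:ℝ)/2)) ≤ (b * (p:ℝ) ^ ((i:ℝ)/2)) * (p:ℝ)^(-((i:ℝ)/2)) := by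
        gcongr
        exact norm_tr H p
    _ = b := by
        rw [mul_assoc, ← Real.rpow_add (idx_pos p)]
        simp

lemma q_nt {N i b : ℕ} {P : ℕ → Polynomial ℂ} (H : Hyp N i b P) (p : Idx N) (η : ℝ) :
    q p η * ‖nt P i p‖ ^ 2 = ‖(P p).coeff 1‖ ^ 2 * (p:ℝ) ^ (-((i:ℝ) + 1 + η)) := by
  rw [nt, norm_mul, norm_half, tr_eq_neg_coeff _ (H.h0 p p.2.1 p.2.2), norm_neg, mul_pow, q]
  have h1 : ((p:ℝ)^(-((i:ℝ)/2))) ^ 2 = (p:ℝ)^(-(i:ℝ)) := by
    rw [← Real.rpow_natCast, ← Real.rpow_mul (idx_pos p).le]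
    congr 1
    push_cast
    ring
  rw [h1]
  have h2 : (p:ℝ) ^ (-((i:ℝ) + 1 + η)) = (p:ℝ)^(-(1+η)) * (p:ℝ)^(-(i:ℝ)) := by
    rw [← Real.rpow_add (idx_pos p)]
    congr 1
    ring
  rw [h2]
  ring

/-- The twisting function of a pair: a character and a point of the edge line. -/
noncomputable def gg {N : ℕ} (x : (ℕ → ℂ) × ℂ) (p : Idx N) : ℂ := x.1 p * ch p x.2.im

lemma gg_norm_le {N : ℕ} {x : (ℕ → ℂ) × ℂ} (hx : ∀ n, ‖x.1 n‖ ≤ 1) (p : Idx N) :
    ‖gg x p‖ ≤ 1 := by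
  rw [gg, norm_mul, norm_ch, mul_one]
  exact hx _

lemma cross {N : ℕ} (hN : 0 < N) (x y : (ℕ → ℂ) × ℂ) (hx : Prim x.1) (hy : Prim y.1)
    (hre : x.2.re = y.2.re) [Decidable (x = y)] : ∃ C : ℝ, 0 ≤ C ∧ ∀ η : ℝ, 0 < η → η ≤ 1 →
      |(∑' p : Idx N, (q p η : ℂ) * (gg x p * (starRingEnd ℂ) (gg y p))).re| ≤
        (if x = y then Real.log (1/η) else 0) + C := by
  by_cases hxy : x = y
  · obtain ⟨C, hC⟩ := primeSum_zero N hN
    refine ⟨max C 0, le_max_right _ _, fun η h0 h1 => ?_⟩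
    rw [if_pos hxy]
    subst hxy
    have h2 := hC η h0 h1
    have h3 : (∑' p : Idx N, (p:ℂ)^(-(1 + (η:ℂ)))).re = ∑' p : Idx N, q p η := by
      rw [Complex.re_tsum (summable_cpow N (by simp; exact h0))]
      apply tsum_congr
      intro p
      have h4 := cpow_split p η 0
      rw [ch_zero, mul_one] at h4
      simp only [Complex.ofReal_zero, zero_mul, add_zero] at h4
      rw [h4, Complex.ofReal_re]
    have h5 : ‖∑' p : Idx N, (q p η : ℂ) * (gg x p * (starRingEnd ℂ) (gg x p))‖ ≤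
        ∑' p : Idx N, q p η := by
      refine tsum_of_norm_bounded (summable_q N h0).hasSum (fun p => ?_)
      rw [norm_mul, Complex.norm_real, Real.norm_of_nonneg (q_pos p η).le, norm_mul,
        RCLike.norm_conj]
      have h6 := gg_norm_le hx.norm_le_one p
      calc q p η * (‖gg x p‖ * ‖gg x p‖) ≤ q p η * (1 * 1) := by
            apply mul_le_mul_of_nonneg_left _ (q_pos p η).le
            exact mul_le_mul h6 h6 (norm_nonneg _) zero_le_one
        _ = q p η := by ring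
    rw [h3] at h2
    rw [abs_le] at h2
    refine (Complex.abs_re_le_norm _).trans (h5.trans ?_)
    have := le_max_left C 0
    linarith
  · have h : x.1 ≠ y.1 ∨ x.2.im - y.2.im ≠ 0 := by
      by_contra hcon
      push Not at hcon
      exact hxy (Prod.ext hcon.1 (Complex.ext hre (sub_eq_zero.mp hcon.2)))
    obtain ⟨C, hC⟩ := cross_ne N hN hx hy h
    refine ⟨max C 0, le_max_right _ _, fun η h0 h1 => ?_⟩
    rw [if_neg hxy, zero_add]
    refine le_trans (le_of_eq ?_) ((hC η h0 h1).trans (le_max_left _ _))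
    congr 2
    apply tsum_congr
    intro p
    rw [cpow_split p η, gg, gg, map_mul, conj_ch, sub_eq_add_neg, ch_add]
    ring

/-- The weighted sum of the logarithms of the twisted Euler products. -/
lemma main_bound {N i b : ℕ} {P : ℕ → Polynomial ℂ} (H : Hyp N i b P)
    (T : Finset ((ℕ → ℂ) × ℂ)) (hT : ∀ x ∈ T, Prim x.1 ∧ x.2.re = 1 + (i:ℝ)/2) :
    ∃ C B : ℝ, 0 ≤ C ∧ ∀ η : ℝ, 0 < η → η ≤ 1 → ∀ v : (ℕ → ℂ) × ℂ → ℝ,
      |∑ x ∈ T, v x * Real.log ‖∏' p : Idx N, ((P p).eval (x.1 p * (p:ℂ)^(-(x.2 + η))))⁻¹‖| ≤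
        Real.sqrt (∑' p : Idx N, q p η * ‖nt P i p‖ ^ 2) *
          Real.sqrt ((Real.log (1/η) + C) * ∑ x ∈ T, v x ^ 2) + B * ∑ x ∈ T, |v x| := by
  classical
  -- the quadratic form on the subtype
  obtain ⟨C, hC0, hC⟩ := quad (N := N) (T.attach) (fun x : {x // x ∈ T} => gg x.1)
    (fun x p => gg_norm_le (hT x.1 x.2).1.norm_le_one p) (fun x y => by
      obtain ⟨C, h1, h2⟩ := cross H.N0 x.1 y.1 (hT x.1 x.2).1 (hT y.1 y.2).1
        ((hT x.1 x.2).2.trans (hT y.1 y.2).2.symm)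
      refine ⟨C, h1, fun η h3 h4 => ?_⟩
      have h5 := h2 η h3 h4
      simp only [Subtype.ext_iff]
      exact h5)
  set B0 : ℝ := b * ∑' p : Idx N, ((p:ℝ)^2)⁻¹ with hB0
  refine ⟨C, B0, hC0, fun η h0 h1 v => ?_⟩
  obtain ⟨hs, hq⟩ := hC η h0 h1 (fun x => v x.1)
  have hsum : ∀ p : Idx N, ∑ x ∈ T.attach, ((v x.1 : ℝ) : ℂ) * gg x.1 p = ∑ x ∈ T, (v x : ℂ) * gg x p :=
    fun p => Finset.sum_attach T (fun x => (v x : ℂ) * gg x p)
  have hv2 : ∑ x ∈ T.attach, v x.1 ^ 2 = ∑ x ∈ T, v x ^ 2 :=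
    Finset.sum_attach T (fun x => v x ^ 2)
  simp only [hsum] at hs hq
  rw [hv2] at hq
  -- the main terms
  set y : (ℕ → ℂ) × ℂ → ℝ := fun x =>
    (∑' p : Idx N, (q p η : ℂ) * (nt P i p * gg x p)).re with hy
  have hsp : ∀ x ∈ T, ∀ p : Idx N, tr (tw (P p) (x.1 p)) * (p:ℂ)^(-(x.2 + η)) =
      (q p η : ℂ) * (nt P i p * gg x p) := by
    intro x hx p
    have e : x.2 + (η:ℂ) = 1 + (i:ℂ)/2 + (η:ℂ) + ((x.2.im : ℝ) : ℂ) * I := by
      have h2 := (hT x hx).2
      apply Complex.ext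
      · simp [h2]
      · simp
    rw [e, cpow_split', tr_tw _ (H.h0 p p.2.1 p.2.2), nt, gg]
    ring
  have hxy : ∀ x ∈ T, |Real.log ‖∏' p : Idx N, ((P p).eval (x.1 p * (p:ℂ)^(-(x.2 + η))))⁻¹‖ - y x| ≤ B0 := by
    intro x hx
    have hre : 1 + (i:ℝ)/2 < (x.2 + (η:ℂ)).re := by
      rw [Complex.add_re, (hT x hx).2, Complex.ofReal_re]
      linarith
    have h2 := log_norm_L (hyp_tw H (hT x hx).1.norm_le_one) hre
    simp only [tw_eval] at h2
    have h3 : (∑' p : Idx N, tr (tw (P p) (x.1 p)) * (p:ℂ)^(-(x.2 + η))).re = y x := by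
      rw [hy]
      simp only
      congr 1
      exact tsum_congr (hsp x hx)
    rw [h3] at h2
    exact h2
  -- summation
  have ha : Summable (fun p : Idx N => q p η * ‖nt P i p‖ ^ 2) := by
    refine Summable.of_nonneg_of_le (fun p => by have := (q_pos p η).le; positivity) (fun p => ?_)
      ((summable_q N h0).mul_right ((b:ℝ)^2))
    have := nt_norm_le H p
    have h2 := (q_pos p η).le
    gcongr
  have hmain : |∑ x ∈ T, v x * y x| ≤ Real.sqrt (∑' p : Idx N, q p η * ‖nt P i p‖ ^ 2) *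
      Real.sqrt ((Real.log (1/η) + C) * ∑ x ∈ T, v x ^ 2) := by
    have hsm : ∀ x ∈ T, Summable (fun p : Idx N => (q p η : ℂ) * (nt P i p * gg x p)) := by
      intro x hx
      refine Summable.of_norm_bounded ((summable_q N h0).mul_right (b:ℝ)) (fun p => ?_)
      rw [norm_mul, norm_mul, Complex.norm_real, Real.norm_of_nonneg (q_pos p η).le]
      have h2 := gg_norm_le (hT x hx).1.norm_le_one p
      have h3 := nt_norm_le H p
      apply mul_le_mul_of_nonneg_left _ (q_pos p η).le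
      calc ‖nt P i p‖ * ‖gg x p‖ ≤ b * 1 := mul_le_mul h3 h2 (norm_nonneg _) (Nat.cast_nonneg _)
        _ = b := mul_one _
    have e1 : ∑ x ∈ T, v x * y x = (∑' p : Idx N, (q p η : ℂ) *
        (nt P i p * ∑ x ∈ T, (v x : ℂ) * gg x p)).re := by
      have e2 : ∀ p : Idx N, (q p η : ℂ) * (nt P i p * ∑ x ∈ T, (v x : ℂ) * gg x p) =
          ∑ x ∈ T, (v x : ℂ) * ((q p η : ℂ) * (nt P i p * gg x p)) := by
        intro p
        rw [Finset.mul_sum, Finset.mul_sum]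
        apply Finset.sum_congr rfl
        intro x _
        ring
      simp_rw [e2]
      rw [Summable.tsum_finsetSum (fun x hx => (hsm x hx).mul_left _), Complex.re_sum]
      apply Finset.sum_congr rfl
      intro x hx
      rw [tsum_mul_left, Complex.re_ofReal_mul]
    rw [e1]
    refine (dual (nt P i) (fun p => ∑ x ∈ T, (v x : ℂ) * gg x p) η ha hs).trans ?_
    apply mul_le_mul_of_nonneg_left _ (Real.sqrt_nonneg _)
    exact Real.sqrt_le_sqrt hq
  have herr : |∑ x ∈ T, v x * (Real.log ‖∏' p : Idx N, ((P p).eval (x.1 p * (p:ℂ)^(-(x.2 + η))))⁻¹‖ - y x)|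
      ≤ B0 * ∑ x ∈ T, |v x| := by
    refine (Finset.abs_sum_le_sum_abs _ _).trans ?_
    rw [Finset.mul_sum]
    apply Finset.sum_le_sum
    intro x hx
    rw [abs_mul, mul_comm]
    exact mul_le_mul_of_nonneg_right (hxy x hx) (abs_nonneg _)
  have hsplit : ∑ x ∈ T, v x * Real.log ‖∏' p : Idx N, ((P p).eval (x.1 p * (p:ℂ)^(-(x.2 + η))))⁻¹‖ =
      ∑ x ∈ T, v x * y x +
      ∑ x ∈ T, v x * (Real.log ‖∏' p : Idx N, ((P p).eval (x.1 p * (p:ℂ)^(-(x.2 + η))))⁻¹‖ - y x) := by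
    rw [← Finset.sum_add_distrib]
    apply Finset.sum_congr rfl
    intro x _
    ring
  rw [hsplit]
  exact (abs_add_le _ _).trans (add_le_add hmain herr)

/-- The upper second moment bound which always holds. -/
lemma second_moment {N i b : ℕ} {P : ℕ → Polynomial ℂ} (H : Hyp N i b P) :
    ∃ C : ℝ, ∀ η : ℝ, 0 < η → η ≤ 1 → ∑' p : Idx N, q p η * ‖nt P i p‖ ^ 2 ≤
      (b:ℝ)^2 * Real.log (1/η) + C := by
  obtain ⟨C, hC⟩ := primeSum_zero N H.N0
  refine ⟨(b:ℝ)^2 * C, fun η h0 h1 => ?_⟩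
  have h2 := hC η h0 h1
  have h3 : (∑' p : Idx N, (p:ℂ)^(-(1 + (η:ℂ)))).re = ∑' p : Idx N, q p η := by
    rw [Complex.re_tsum (summable_cpow N (by simp; exact h0))]
    apply tsum_congr
    intro p
    have h4 := cpow_split p η 0
    rw [ch_zero, mul_one] at h4
    simp only [Complex.ofReal_zero, zero_mul, add_zero] at h4
    rw [h4, Complex.ofReal_re]
  rw [h3, abs_le] at h2
  have hle : ∀ p : Idx N, q p η * ‖nt P i p‖ ^ 2 ≤ q p η * (b:ℝ)^2 := by
    intro p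
    have := nt_norm_le H p
    have h2 := (q_pos p η).le
    gcongr
  have ha : Summable (fun p : Idx N => q p η * ‖nt P i p‖ ^ 2) := by
    refine Summable.of_nonneg_of_le (fun p => by have := (q_pos p η).le; positivity) hle
      ((summable_q N h0).mul_right ((b:ℝ)^2))
  calc ∑' p : Idx N, q p η * ‖nt P i p‖ ^ 2 ≤ ∑' p : Idx N, q p η * (b:ℝ)^2 :=
        ha.tsum_le_tsum hle ((summable_q N h0).mul_right ((b:ℝ)^2))
    _ = (b:ℝ)^2 * ∑' p : Idx N, q p η := by rw [tsum_mul_right, mul_comm]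
    _ ≤ (b:ℝ)^2 * (Real.log (1/η) + C) := by
        apply mul_le_mul_of_nonneg_left _ (by positivity)
        linarith
    _ = _ := by ring

/-- Orders of the twists: sum of squares over finite sets. -/
lemma orders_bound {N i b : ℕ} {P : ℕ → Polynomial ℂ} (H : Hyp N i b P)
    (T : Finset ((ℕ → ℂ) × ℂ)) (hT : ∀ x ∈ T, Prim x.1 ∧ x.2.re = 1 + (i:ℝ)/2)
    (n : (ℕ → ℂ) × ℂ → ℝ)
    (hn : ∀ x ∈ T, Tendsto (fun η : ℝ =>
      Real.log ‖∏' p : Idx N, ((P p).eval (x.1 p * (p:ℂ)^(-(x.2 + η))))⁻¹‖ / Real.log (1/η))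
      (𝓝[>] 0) (𝓝 (-(n x))))
    (M : ℝ) (hM : ∃ C : ℝ, ∀ η : ℝ, 0 < η → η ≤ 1 → ∑' p : Idx N, q p η * ‖nt P i p‖ ^ 2 ≤
      M * Real.log (1/η) + C) : ∑ x ∈ T, n x ^ 2 ≤ M := by
  obtain ⟨C1, hC1⟩ := hM
  obtain ⟨C, B, hC0, hC⟩ := main_bound H T hT
  have hlt : ∀ᶠ η : ℝ in 𝓝[>] 0, η < 1 := by
    have : ∀ᶠ η : ℝ in 𝓝 0, η < 1 := gt_mem_nhds one_pos
    exact nhdsWithin_le_nhds this
  set S := ∑ x ∈ T, n x ^ 2 with hS
  have hS0 : 0 ≤ S := Finset.sum_nonneg fun _ _ => sq_nonneg _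
  -- `M` is nonnegative
  have hM0 : 0 ≤ M := by
    have h1 : Tendsto (fun η : ℝ => M + C1 / Real.log (1/η)) (𝓝[>] 0) (𝓝 (M + 0)) :=
      tendsto_const_nhds.add (tendsto_const_nhds.div_atTop tendsto_log_inv)
    rw [add_zero] at h1
    refine ge_of_tendsto h1 ?_
    filter_upwards [self_mem_nhdsWithin, hlt] with η h3 h4
    have hη : 0 < η := h3
    have hlog : 0 < Real.log (1/η) := by
      apply Real.log_pos
      rw [lt_div_iff₀ hη]
      linarith
    have h5 : 0 ≤ ∑' p : Idx N, q p η * ‖nt P i p‖ ^ 2 :=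
      tsum_nonneg fun p => by have := (q_pos p η).le; positivity
    have h6 := h5.trans (hC1 η hη h4.le)
    rw [← mul_div_cancel_right₀ M hlog.ne', ← add_div]
    positivity
  -- limits
  have h1 : Tendsto (fun η : ℝ => ∑ x ∈ T, (-(n x)) * (Real.log ‖∏' p : Idx N,
      ((P p).eval (x.1 p * (p:ℂ)^(-(x.2 + η))))⁻¹‖ / Real.log (1/η))) (𝓝[>] 0)
      (𝓝 (∑ x ∈ T, (-(n x)) * (-(n x)))) := by
    apply tendsto_finsetSum
    intro x hx
    exact (hn x hx).const_mul _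
  have h2 : Tendsto (fun η : ℝ => Real.sqrt ((M + C1 / Real.log (1/η)) *
      ((1 + C / Real.log (1/η)) * S)) + (B * ∑ x ∈ T, |-(n x)|) / Real.log (1/η)) (𝓝[>] 0)
      (𝓝 (Real.sqrt ((M + 0) * ((1 + 0) * S)) + 0)) := by
    apply Tendsto.add
    · apply Tendsto.sqrt
      apply Tendsto.mul
      · exact tendsto_const_nhds.add (tendsto_const_nhds.div_atTop tendsto_log_inv)
      · apply Tendsto.mul_const
        exact tendsto_const_nhds.add (tendsto_const_nhds.div_atTop tendsto_log_inv)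
    · exact tendsto_const_nhds.div_atTop tendsto_log_inv
  have h3 := le_of_tendsto_of_tendsto h1 h2 (by
    filter_upwards [self_mem_nhdsWithin, hlt] with η h3 h4
    have hη : 0 < η := h3
    have hlog : 0 < Real.log (1/η) := by
      apply Real.log_pos
      rw [lt_div_iff₀ hη]
      linarith
    have h5 := (le_abs_self _).trans (hC η hη h4.le (fun x => -(n x)))
    have h6 := hC1 η hη h4.le
    have e1 : ∑ x ∈ T, (-(n x)) * (Real.log ‖∏' p : Idx N,
        ((P p).eval (x.1 p * (p:ℂ)^(-(x.2 + η))))⁻¹‖ / Real.log (1/η)) =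
        (∑ x ∈ T, (-(n x)) * Real.log ‖∏' p : Idx N,
        ((P p).eval (x.1 p * (p:ℂ)^(-(x.2 + η))))⁻¹‖) / Real.log (1/η) := by
      rw [Finset.sum_div]
      apply Finset.sum_congr rfl
      intro x _
      ring
    rw [e1, div_le_iff₀ hlog, add_mul, div_mul_cancel₀ _ hlog.ne']
    refine h5.trans ?_
    have e2 : ∑ x ∈ T, (-(n x)) ^ 2 = S := by
      rw [hS]
      exact Finset.sum_congr rfl fun x _ => by ring
    rw [e2]
    apply add_le_add_left
    rw [← Real.sqrt_mul' _ (by positivity)]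
    have e3 : Real.sqrt ((M + C1 / Real.log (1/η)) * ((1 + C / Real.log (1/η)) * S)) * Real.log (1/η) =
        Real.sqrt ((M * Real.log (1/η) + C1) * ((Real.log (1/η) + C) * S)) := by
      have e4 : (M * Real.log (1/η) + C1) * ((Real.log (1/η) + C) * S) =
          ((M + C1 / Real.log (1/η)) * ((1 + C / Real.log (1/η)) * S)) * Real.log (1/η) ^ 2 := by
        field_simp
      rw [e4, Real.sqrt_mul' _ (sq_nonneg _), Real.sqrt_sq hlog.le]
    rw [e3]
    apply Real.sqrt_le_sqrt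
    apply mul_le_mul_of_nonneg_right h6
    positivity)
  have e5 : ∑ x ∈ T, (-(n x)) * (-(n x)) = S := by
    rw [hS]
    exact Finset.sum_congr rfl fun x _ => by ring
  rw [e5, add_zero, add_zero, add_zero, one_mul] at h3
  -- conclusion
  by_contra hcon
  push Not at hcon
  have hSpos : 0 < S := lt_of_le_of_lt hM0 hcon
  have h4 : S ^ 2 ≤ M * S := by
    have h5 : 0 ≤ M * S := mul_nonneg hM0 hS0
    have h6 := pow_le_pow_left₀ hS0 h3 2
    rwa [Real.sq_sqrt h5] at h6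
  nlinarith

end Pool.H42.HW
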