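import Mathlib
import Pool.Agent.H42.HW.Twist

open Complex Filter Topology

namespace Pool.H42.HW.TwistedEdge

open Pool.Agent.H89.EdgeBasic Pool.Agent.H89.EdgeOrd Pool.H42.HW

/-- All twists by Dirichlet characters at once, on the edge line `Re s = 1 + i/2`.

`P_p` (`p` not dividing `N`) are local factors with `P_p(0) = 1`, `deg P_p ≤ b` and all reciprocal
roots of absolute value at most `p^{i/2}` (this holds for `P_i(X(p)/F_p, T)`, with `b = b_i(X)`),
and for a primitive Dirichlet character `χ` (of any modulus) the twisted Euler product is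
`L(χ; s) = ∏_p P_p(χ(p) p^{-s})⁻¹`. Let `A` be any set of pairs `(χ, s)` with `Re s = 1 + i/2`.

Growth, without any continuation: for every finite `T ⊆ A` the sum over `T` of
`(log |L(χ; s + η)|)²` is at most `M log(1/η)² + C (log(1/η) + 1)`.

Orders: if `L(χ; ·)` is meromorphic at `s` for all `(χ, s) ∈ A`, then the sum over `A` of the
squares of the orders is at most `M`.

Here `M ≥ b²`, or `M` is any upper bound for the second moment of the traces. In particular at most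
`b²` of all primitive Dirichlet characters have a twist with a zero or a pole on the edge line. -/
theorem twistedEdge (N i b : ℕ) (hN : 0 < N) (P : ℕ → Polynomial ℂ)
    (h0 : ∀ p : ℕ, p.Prime → ¬ p ∣ N → (P p).eval 0 = 1)
    (hdeg : ∀ p : ℕ, p.Prime → ¬ p ∣ N → (P p).natDegree ≤ b)
    (hroots : ∀ p : ℕ, p.Prime → ¬ p ∣ N → ∀ z : ℂ, (P p).IsRoot z →
      (p:ℝ) ^ (-(i:ℝ)/2) ≤ ‖z‖)
    (A : Set ((ℕ → ℂ) × ℂ))
    (hA : ∀ x ∈ A, (∃ (q : ℕ) (χ : DirichletCharacter ℂ q), q ≠ 0 ∧ χ.IsPrimitive ∧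
      x.1 = fun n : ℕ => χ n) ∧ x.2.re = 1 + (i:ℝ)/2)
    (L : (ℕ → ℂ) → ℂ → ℂ)
    (hL : ∀ x ∈ A, ∀ s : ℂ, 1 + (i:ℝ)/2 < s.re →
      L x.1 s = ∏' p : {p : ℕ // p.Prime ∧ ¬ p ∣ N}, ((P p).eval (x.1 p * (p:ℂ) ^ (-s)))⁻¹)
    (M : ℝ) (hM : (b:ℝ) ^ 2 ≤ M ∨ ∃ C : ℝ, ∀ η : ℝ, 0 < η → η ≤ 1 →
      ∑' p : {p : ℕ // p.Prime ∧ ¬ p ∣ N}, ‖(P p).coeff 1‖ ^ 2 * (p:ℝ) ^ (-((i:ℝ) + 1 + η))
        ≤ M * Real.log (1/η) + C) :
    (∀ T : Finset ((ℕ → ℂ) × ℂ), (T : Set ((ℕ → ℂ) × ℂ)) ⊆ A → ∃ C : ℝ, ∀ η : ℝ, 0 < η → η ≤ 1 →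
      ∑ x ∈ T, Real.log ‖L x.1 (x.2 + η)‖ ^ 2 ≤
        M * Real.log (1/η) ^ 2 + C * (Real.log (1/η) + 1)) ∧
    ((∀ x ∈ A, MeromorphicAt (L x.1) x.2) →
      (∀ x ∈ A, meromorphicOrderAt (L x.1) x.2 ≠ ⊤) ∧
      {x ∈ A | meromorphicOrderAt (L x.1) x.2 ≠ 0}.Finite ∧
      ((∑ᶠ x ∈ A, (meromorphicOrderAt (L x.1) x.2).untop₀ ^ 2 : ℤ) : ℝ) ≤ M) := by
  classical
  have H : Hyp N i b P := ⟨hN, h0, hdeg, hroots⟩
  have hprim : ∀ x ∈ A, Prim x.1 := fun x hx => (hA x hx).1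
  have hre : ∀ x ∈ A, x.2.re = 1 + (i:ℝ)/2 := fun x hx => (hA x hx).2
  -- the second moment
  have hM' : ∃ C : ℝ, 0 ≤ C ∧ ∀ η : ℝ, 0 < η → η ≤ 1 →
      ∑' p : Idx N, q p η * ‖nt P i p‖ ^ 2 ≤ M * Real.log (1/η) + C := by
    rcases hM with hM | ⟨C, hC⟩
    · obtain ⟨C, hC⟩ := second_moment H
      refine ⟨max C 0, le_max_right _ _, fun η h1 h2 => (hC η h1 h2).trans ?_⟩
      have hlog : 0 ≤ Real.log (1/η) := by
        apply Real.log_nonneg
        rw [le_div_iff₀ h1]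
        linarith
      have := mul_le_mul_of_nonneg_right hM hlog
      have := le_max_left C 0
      linarith
    · refine ⟨max C 0, le_max_right _ _, fun η h1 h2 => ?_⟩
      have h3 := hC η h1 h2
      have h4 : ∑' p : Idx N, q p η * ‖nt P i p‖ ^ 2 =
          ∑' p : {p : ℕ // p.Prime ∧ ¬ p ∣ N}, ‖(P p).coeff 1‖ ^ 2 * (p:ℝ) ^ (-((i:ℝ) + 1 + η)) :=
        tsum_congr fun p => q_nt H p η
      rw [h4]
      have := le_max_left C 0
      linarith
  obtain ⟨C1, hC10, hC1⟩ := hM'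
  -- values to the right of the edge
  have hval : ∀ x ∈ A, ∀ η : ℝ, 0 < η → L x.1 (x.2 + η) =
      ∏' p : Idx N, ((P p).eval (x.1 p * (p:ℂ)^(-(x.2 + η))))⁻¹ := by
    intro x hx η hη
    apply hL x hx
    rw [Complex.add_re, hre x hx, Complex.ofReal_re]
    linarith
  constructor
  · -- growth
    intro T hT
    obtain ⟨C, B, hC0, hC⟩ := main_bound H T (fun x hx => ⟨hprim x (hT hx), hre x (hT hx)⟩)
    set k : ℝ := |B| * Real.sqrt T.card with hk
    have hk0 : 0 ≤ k := by positivity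
    refine ⟨|M| * C + C1 + C1 * C + k * (|M| + C1 + 1 + C) + k ^ 2, fun η h1 h2 => ?_⟩
    set ℓ := Real.log (1/η) with hℓ
    have hlog : 0 ≤ ℓ := by
      apply Real.log_nonneg
      rw [le_div_iff₀ h1]
      linarith
    set Sa := ∑' p : Idx N, q p η * ‖nt P i p‖ ^ 2 with hSa
    have hSa0 : 0 ≤ Sa := tsum_nonneg fun p => by have := (q_pos p η).le; positivity
    have hSa1 : Sa ≤ M * ℓ + C1 := hC1 η h1 h2
    set lg : (ℕ → ℂ) × ℂ → ℝ := fun x => Real.log ‖L x.1 (x.2 + η)‖ with hlg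
    set Y := ∑ x ∈ T, lg x ^ 2 with hY
    have hY0 : 0 ≤ Y := Finset.sum_nonneg fun _ _ => sq_nonneg _
    have h3 := (le_abs_self _).trans (hC η h1 h2 lg)
    have e1 : ∑ x ∈ T, lg x * Real.log ‖∏' p : Idx N,
        ((P p).eval (x.1 p * (p:ℂ)^(-(x.2 + η))))⁻¹‖ = Y := by
      rw [hY]
      apply Finset.sum_congr rfl
      intro x hx
      rw [← hval x (hT hx) η h1, sq]
    have e2 : ∑ x ∈ T, |lg x| ≤ Real.sqrt T.card * Real.sqrt Y := by
      have h4 := Finset.sum_mul_sq_le_sq_mul_sq T (fun _ => (1:ℝ)) (fun x => |lg x|)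
      simp only [one_mul, one_pow, Finset.sum_const, nsmul_eq_mul, mul_one, sq_abs] at h4
      rw [← Real.sqrt_mul (Nat.cast_nonneg _)]
      exact Real.le_sqrt_of_sq_le h4
    rw [e1, Real.sqrt_mul (by positivity)] at h3
    set u := Real.sqrt Sa * Real.sqrt (ℓ + C) with hu
    have hu0 : 0 ≤ u := by positivity
    have h5 : Y ≤ (u + k) * Real.sqrt Y := by
      calc Y ≤ Real.sqrt Sa * (Real.sqrt (ℓ + C) * Real.sqrt Y) + B * ∑ x ∈ T, |lg x| := h3
        _ ≤ Real.sqrt Sa * (Real.sqrt (ℓ + C) * Real.sqrt Y) + |B| * ∑ x ∈ T, |lg x| := by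
            gcongr
            exact le_abs_self B
        _ ≤ Real.sqrt Sa * (Real.sqrt (ℓ + C) * Real.sqrt Y) +
            |B| * (Real.sqrt T.card * Real.sqrt Y) := by
            gcongr
        _ = (u + k) * Real.sqrt Y := by rw [hu, hk]; ring
    have h6 : Real.sqrt Y ≤ u + k := by
      by_contra hcon
      push Not at hcon
      have h7 := Real.mul_self_sqrt hY0
      have h8 : 0 < Real.sqrt Y := lt_of_le_of_lt (by positivity) hcon
      nlinarith
    have h7 : Y ≤ (u + k) ^ 2 := by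
      have h8 := pow_le_pow_left₀ (Real.sqrt_nonneg _) h6 2
      rwa [Real.sq_sqrt hY0] at h8
    have h8 : u ^ 2 ≤ (M * ℓ + C1) * (ℓ + C) := by
      rw [hu, mul_pow, Real.sq_sqrt hSa0, Real.sq_sqrt (by positivity)]
      gcongr
    have h9 : 2 * u ≤ (|M| * ℓ + C1) + (ℓ + C) := by
      have h10 : M * ℓ ≤ |M| * ℓ := mul_le_mul_of_nonneg_right (le_abs_self M) hlog
      have h11 : Real.sqrt Sa ^ 2 ≤ |M| * ℓ + C1 := by
        rw [Real.sq_sqrt hSa0]
        linarith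
      have h12 : Real.sqrt (ℓ + C) ^ 2 = ℓ + C := Real.sq_sqrt (by positivity)
      nlinarith [sq_nonneg (Real.sqrt Sa - Real.sqrt (ℓ + C))]
    have hMC : M * C * ℓ ≤ |M| * C * ℓ := by
      apply mul_le_mul_of_nonneg_right _ hlog
      exact mul_le_mul_of_nonneg_right (le_abs_self M) hC0
    have hMabs : 0 ≤ |M| := abs_nonneg M
    calc ∑ x ∈ T, Real.log ‖L x.1 (x.2 + η)‖ ^ 2 = Y := rfl
      _ ≤ (u + k) ^ 2 := h7
      _ = u ^ 2 + k * (2 * u) + k ^ 2 := by ring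
      _ ≤ (M * ℓ + C1) * (ℓ + C) + k * ((|M| * ℓ + C1) + (ℓ + C)) + k ^ 2 := by gcongr
      _ ≤ M * ℓ ^ 2 + (|M| * C + C1 + C1 * C + k * (|M| + C1 + 1 + C) + k ^ 2) * (ℓ + 1) := by
          have a1 : 0 ≤ |M| * C := by positivity
          have a2 : 0 ≤ C1 * C * ℓ := by positivity
          have a3 : 0 ≤ k * (|M| + C) := by positivity
          have a4 : 0 ≤ k * C1 * ℓ := by positivity
          have a5 : 0 ≤ k * C * ℓ := by positivity
          have a6 : 0 ≤ k ^ 2 * ℓ := by positivity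
          nlinarith
  · -- orders
    intro hmero
    have hLne : ∀ x ∈ A, ∀ η : ℝ, 0 < η → L x.1 (x.2 + η) ≠ 0 := by
      intro x hx η hη
      rw [hval x hx η hη]
      have hre' : 1 + (i:ℝ)/2 < (x.2 + (η:ℂ)).re := by
        rw [Complex.add_re, hre x hx, Complex.ofReal_re]
        linarith
      have h1 := hasProd_L (hyp_tw H (hprim x hx).norm_le_one) hre'
      simp only [tw_eval] at h1
      rw [h1.tprod_eq]
      exact Complex.exp_ne_zero _
    have htop : ∀ x ∈ A, meromorphicOrderAt (L x.1) x.2 ≠ ⊤ := by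
      intro x hx htop
      rw [meromorphicOrderAt_eq_top_iff] at htop
      have h1 := (tendsto_shift x.2).eventually htop
      obtain ⟨η, h3, h4⟩ := (h1.and self_mem_nhdsWithin).exists
      exact hLne x hx η h4 h3
    set n : (ℕ → ℂ) × ℂ → ℝ := fun x => ((meromorphicOrderAt (L x.1) x.2).untop₀ : ℝ) with hn
    have hrad : ∀ x ∈ A, Tendsto (fun η : ℝ =>
        Real.log ‖∏' p : Idx N, ((P p).eval (x.1 p * (p:ℂ)^(-(x.2 + η))))⁻¹‖ / Real.log (1/η))
        (𝓝[>] 0) (𝓝 (-(n x))) := by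
      intro x hx
      refine (radial (hmero x hx) (htop x hx)).congr' ?_
      filter_upwards [self_mem_nhdsWithin] with η hη
      rw [hval x hx η hη]
    have hsq : ∀ T : Finset ((ℕ → ℂ) × ℂ), (T : Set ((ℕ → ℂ) × ℂ)) ⊆ A →
        ∑ x ∈ T, n x ^ 2 ≤ M := by
      intro T hT
      exact orders_bound H T (fun x hx => ⟨hprim x (hT hx), hre x (hT hx)⟩) n
        (fun x hx => hrad x (hT hx)) M ⟨C1, hC1⟩
    have hne_iff : ∀ x ∈ A, (meromorphicOrderAt (L x.1) x.2 ≠ 0 ↔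
        (meromorphicOrderAt (L x.1) x.2).untop₀ ≠ 0) := by
      intro x hx
      have h1 := htop x hx
      rw [not_iff_not]
      constructor
      · intro h
        rw [h]
        rfl
      · intro h
        rw [← WithTop.coe_untop₀_of_ne_top h1, h]
        rfl
    have hfin : {x ∈ A | meromorphicOrderAt (L x.1) x.2 ≠ 0}.Finite := by
      by_contra hinf
      obtain ⟨T, hT, hcard⟩ :=
        (show Set.Infinite {x ∈ A | meromorphicOrderAt (L x.1) x.2 ≠ 0} from hinf).exists_subset_card_eq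
          (⌈M⌉₊ + 1)
      have hTA : (T : Set ((ℕ → ℂ) × ℂ)) ⊆ A := fun x hx => (hT hx).1
      have h1 := hsq T hTA
      have h2 : (T.card : ℝ) ≤ ∑ x ∈ T, n x ^ 2 := by
        rw [← nsmul_one, ← Finset.sum_const]
        apply Finset.sum_le_sum
        intro x hx
        have h3 := (hne_iff x (hTA hx)).mp (hT hx).2
        have h5 : (1:ℤ) ≤ (meromorphicOrderAt (L x.1) x.2).untop₀ ^ 2 := by
          have := sq_nonneg ((meromorphicOrderAt (L x.1) x.2).untop₀)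
          rcases this.lt_or_eq with h | h
          · omega
          · exact absurd (pow_eq_zero_iff (two_ne_zero) |>.mp h.symm) h3
        simp only [hn]
        exact_mod_cast h5
      rw [hcard] at h2
      push_cast at h2
      have := Nat.le_ceil M
      linarith
    refine ⟨htop, hfin, ?_⟩
    have h1 : (∑ᶠ x ∈ A, (meromorphicOrderAt (L x.1) x.2).untop₀ ^ 2) =
        ∑ x ∈ hfin.toFinset, (meromorphicOrderAt (L x.1) x.2).untop₀ ^ 2 := by
      apply finsum_mem_eq_sum_of_inter_support_eq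
      ext x
      simp only [Set.mem_inter_iff, Function.mem_support, Set.Finite.coe_toFinset,
        Set.mem_ofPred_eq, ne_eq, pow_eq_zero_iff two_ne_zero]
      constructor
      · rintro ⟨h1, h2⟩
        exact ⟨⟨h1, (hne_iff x h1).mpr h2⟩, h2⟩
      · rintro ⟨⟨h1, _⟩, h3⟩
        exact ⟨h1, h3⟩
    rw [h1]
    have h2 := hsq hfin.toFinset (fun x hx => ((Set.Finite.mem_toFinset hfin).mp hx).1)
    push_cast
    exact h2

end Pool.H42.HW.TwistedEdge
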